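import Pool.Agent.N463.HW.Stm

/-!
# Project HW (helper463), part EIG: the moment condition implies that `h_0` is an eigenfunction.
-/

set_option autoImplicit false

open MeasureTheory

namespace Pool.Agent.N187.HW

open Pool.Agent.N463.HW

lemma memLp_herm0 {c₀ : ℝ} (h0 : ∀ t : ℝ, herm 0 t = c₀ * Complex.exp (-Real.pi * t ^ 2)) :
    MemLp (herm 0) 2 := by
  have hf : herm 0 = fun t : ℝ => (c₀ : ℂ) * Complex.exp (-Real.pi * (t : ℂ) ^ 2) := funext h0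
  rw [hf]
  have hc : Continuous (fun t : ℝ => (c₀ : ℂ) * Complex.exp (-Real.pi * (t : ℂ) ^ 2)) := by
    fun_prop
  rw [memLp_two_iff_integrable_sq_norm hc.aestronglyMeasurable]
  have h1 : ∀ t : ℝ, ‖(c₀ : ℂ) * Complex.exp (-Real.pi * (t : ℂ) ^ 2)‖ ^ 2 =
      c₀ ^ 2 * Real.exp (-(2 * Real.pi) * t ^ 2) := by
    intro t
    have e : (-Real.pi * (t : ℂ) ^ 2 : ℂ) = ((-Real.pi * t ^ 2 : ℝ) : ℂ) := by push_cast; ring
    rw [norm_mul, e, Complex.norm_exp_ofReal, Complex.norm_real, mul_pow, Real.norm_eq_abs,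
      sq_abs, ← Real.exp_nat_mul]
    congr 2
    push_cast
    ring
  simp only [h1]
  exact (integrable_exp_neg_mul_sq (by positivity)).const_mul _

/-- the product of the two transforms -/
lemma prod_eq {c₀ c₁ : ℝ} {w : ℝ × ℝ} {V₀ Vg b b' : ℂ}
    (h0 : (starRingEnd ℂ) V₀ =
        -(c₁ / (2 * Real.pi)) * Complex.exp (-Real.pi * w.1 ^ 2 + Real.pi * zz w ^ 2 / 2) *
          (0 - Real.pi * (starRingEnd ℂ) (zz w) * ((c₀ / Real.sqrt 2 : ℝ) : ℂ)))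
    (hg : (starRingEnd ℂ) Vg =
        -(c₁ / (2 * Real.pi)) * Complex.exp (-Real.pi * w.1 ^ 2 + Real.pi * zz w ^ 2 / 2) *
          (b' - Real.pi * (starRingEnd ℂ) (zz w) * b)) :
    V₀ * (starRingEnd ℂ) Vg = (-(c₀ * c₁ ^ 2 / (4 * Real.sqrt 2 * Real.pi)) : ℝ) *
      ((zz w * b' - Real.pi * (‖zz w‖ ^ 2 : ℝ) * b) *
        Complex.exp (-Real.pi * (‖zz w‖ ^ 2 : ℝ))) := by
  have h1 : V₀ = -(c₁ / (2 * Real.pi)) *
      Complex.exp (-Real.pi * w.1 ^ 2 + Real.pi * (starRingEnd ℂ) (zz w) ^ 2 / 2) *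
      (-(Real.pi * zz w * ((c₀ / Real.sqrt 2 : ℝ) : ℂ))) := by
    have := congrArg (starRingEnd ℂ) h0
    rw [Complex.conj_conj] at this
    rw [this]
    simp only [map_mul, map_neg, map_sub, map_zero, map_div₀, Complex.conj_ofReal,
      Complex.conj_conj, ← Complex.exp_conj, map_add, map_pow, map_ofNat, zero_sub]
  have hz : zz w * (starRingEnd ℂ) (zz w) = ((‖zz w‖ ^ 2 : ℝ) : ℂ) := by
    rw [Complex.mul_conj, Complex.normSq_eq_norm_sq]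
  have hn : ((‖zz w‖ ^ 2 : ℝ) : ℂ) = (w.1 : ℂ) ^ 2 + (w.2 : ℂ) ^ 2 := by
    rw [← Complex.normSq_eq_norm_sq, Complex.normSq_apply]
    simp [zz]
    ring
  have hexp : Complex.exp (-Real.pi * w.1 ^ 2 + Real.pi * (starRingEnd ℂ) (zz w) ^ 2 / 2) *
      Complex.exp (-Real.pi * w.1 ^ 2 + Real.pi * zz w ^ 2 / 2) =
      Complex.exp (-Real.pi * (‖zz w‖ ^ 2 : ℝ)) := by
    rw [← Complex.exp_add]
    congr 1
    rw [hn]
    have hc : (starRingEnd ℂ) (zz w) = (w.1 : ℂ) - (w.2 : ℂ) * Complex.I := by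
      simp [zz, sub_eq_add_neg]
    rw [hc]
    unfold zz
    linear_combination (Real.pi * (w.2 : ℂ) ^ 2) * Complex.I_sq
  rw [hg, h1, ← hexp, ← hz]
  push_cast
  have h2 : (Real.pi : ℂ) ≠ 0 := by exact_mod_cast Real.pi_ne_zero
  have h3 : ((Real.sqrt 2 : ℝ) : ℂ) ≠ 0 := by
    exact_mod_cast (Real.sqrt_pos.2 (by norm_num : (0 : ℝ) < 2)).ne'
  field_simp
  ring

theorem t_EIG (h1 : S_HER) (h2 : S_ENT) (h3 : S_VG) (h4 : S_V0) (h5 : S_SER) : S_EIG := by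
  obtain ⟨c₀, c₁, hc₀, hc₁, e0, e1⟩ := h1
  intro Ω hΩ hM hmom
  set J : ℝ := ∫ w in Ω, ‖zz w‖ ^ 2 * Real.exp (-Real.pi * ‖zz w‖ ^ 2) with hJ
  have hL0 := memLp_herm0 e0
  refine ⟨((c₁ ^ 2 * J / (4 * Real.sqrt 2) : ℝ) : ℂ), fun g hg => ?_⟩
  have hb := (h2 g hg).2.2
  have hdiff : Differentiable ℂ (bst g) := fun z => (hb z).differentiableAt
  have hV0 : bst (herm 0) = fun _ => ((c₀ / Real.sqrt 2 : ℝ) : ℂ) := funext (h4 c₀ e0)
  have hpt : ∀ w : ℝ × ℝ, stft (herm 1) (herm 0) w * (starRingEnd ℂ) (stft (herm 1) g w) =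
      (-(c₀ * c₁ ^ 2 / (4 * Real.sqrt 2 * Real.pi)) : ℝ) *
      ((zz w * deriv (bst g) (zz w) - Real.pi * (‖zz w‖ ^ 2 : ℝ) * bst g (zz w)) *
        Complex.exp (-Real.pi * (‖zz w‖ ^ 2 : ℝ))) := by
    intro w
    have a0 := h3 c₁ e1 (herm 0) hL0 w
    have a1 := h3 c₁ e1 g hg w
    rw [hV0] at a0
    simp only [deriv_const] at a0
    exact prod_eq a0 a1
  simp only [hpt]
  rw [integral_const_mul, h5 Ω hΩ hM hmom (bst g) hdiff, ← hJ]
  have hb0 : (c₀ : ℂ) * bst g 0 = ∫ t, herm 0 t * (starRingEnd ℂ) (g t) := by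
    unfold bst
    rw [← integral_const_mul, ← integral_const_mul]
    congr 1
    ext t
    rw [e0 t]
    simp only [mul_zero, add_zero, ne_eq, OfNat.ofNat_ne_zero, not_false_eq_true, zero_pow,
      zero_div, Complex.exp_zero, one_mul]
    ring
  rw [← hb0]
  push_cast
  have h6 : (Real.pi : ℂ) ≠ 0 := by exact_mod_cast Real.pi_ne_zero
  have h7 : ((Real.sqrt 2 : ℝ) : ℂ) ≠ 0 := by
    exact_mod_cast (Real.sqrt_pos.2 (by norm_num : (0 : ℝ) < 2)).ne'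
  field_simp

end Pool.Agent.N187.HW
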